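import Mathlib
import Pool.Agent.W2helper33.ZC.Fin

/-!
# Zero-cycles on plane cubics over the fields of an infinite extension

`K` is the field of third roots of unity. A Galois extension `F / K` of degree `3 ^ n` is allowed if
it is ramified only at primes that do not divide `3` and in whose residue fields (of `K`) `-1` is not
a square; the Galois group may be any `3`-group. The field `Omega` is the infinite extension of `ℚ`
generated by `√-3`, the cube roots of the cube-free `D = ± 1` modulo `9` composed of primes `7` modulo
`12`, and the numbers of degree `3 ^ n` in the cyclotomic fields of the `m` composed of primes `7`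
modulo `12`.

Let `X : f = 0` be a plane cubic over a number field `k` which over an extension `E` of `k` is the
Fermat cubic: over `E`, the form `f` is the sum of the cubes of three linearly independent linear
forms. Let `L` be the matrix of the linear forms. The Jacobian of `X` is `y² = x³ - 432 det(L)⁶`
(this is not used and not part of the theorem); it is isomorphic to `y² = x³ - 1` over an extension
`F` of `k` that contains `√-3` if and only if `-16 det(L)⁶` is a sixth power in `F`.

Theorem: if `F / k` is normal, `F / K` is allowed and `-16 det(L)⁶` is a sixth power in `F`, and for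
every finite place `v` of `k` the curve has a point over a finite extension of `k_v` of degree prime
to `3` (that is, a zero-cycle of degree prime to `3` over `k_v`), then `X` has a `k`-rational point.
The same holds for all number fields `k` contained in `Omega` if `-16 det(L)⁶` is a sixth power in
`Omega`. In particular the answer to Q1 is positive for these curves `X`, and no condition at the
elements of the Brauer group or at the real places is needed.

For the curves `a x³ + b x² y + c x y² + d y³ = e z³` the condition is that `-16 e²` times the
discriminant of the binary form is the sixth power of a nonzero element of `Omega`, and the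
conclusion is that the binary form has a zero in `k`.

The field `F` may be nonabelian over `K` and the field `k` need not contain `K`; the finiteness of the
Tate-Shafarevich groups over such `k` is not known.

The proof: over `F`, a curve `g(x, y) = e z³` gives an element `z` of `L = F(i)` whose class modulo
cubes is a local condition of the `√-3`-descent at all places; such classes are trivial by the theorem
of project TQ (`MP_76188c_nt`, `ThreePowerExtensions`), hence `g` has a zero in `F`; if the cubic
polynomial has no root in `k`, its splitting field contains a square root of `-1`, which is not in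
`F`. A general plane cubic which is a form of the Fermat cubic is `Tr(α x³) = 0` for a cubic étale
algebra over `k`; its Hessian determinant gives a curve of the first type, so the algebra has a
factor `k`, and a second curve of the first type gives the point.

Built on project TQ of helper24 (pieces by helper2, helper8, helper10, helper14, helper15, helper17,
helper19, helper22, helper24, helper53, helper54, helper55, helper60, helper66, helper68, helper73,
helper84, helper89, helper92, helper93, helper95 and helper99).
-/

set_option autoImplicit false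

namespace Pool.Agent.Results.MP_1ad228_nt.PlaneCubicsOverOmega

open NumberField IsDedekindDomain MvPolynomial
open scoped Classical

/-- `F / K` is Galois, its degree is a power of `3`, and it is ramified only at primes that do not
divide `3` and in whose residue fields (of `K`) `-1` is not a square. -/
def Allowed (K F : Type) [Field K] [NumberField K] [Field F] [NumberField F] [Algebra K F] :
    Prop :=
  IsGalois K F ∧ (∃ n : ℕ, Module.finrank K F = 3 ^ n) ∧
    ∀ w : HeightOneSpectrum (𝓞 F), ¬ Algebra.IsUnramifiedAt (𝓞 K) w.asIdeal →
      (3 : 𝓞 F) ∉ w.asIdeal ∧ ∀ x : 𝓞 K, algebraMap (𝓞 K) (𝓞 F) (x ^ 2 + 1) ∉ w.asIdeal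

/-- `m > 0` is composed of primes `7` modulo `12`. -/
def Conductor (m : ℕ) : Prop := 0 < m ∧ ∀ q : ℕ, q.Prime → q ∣ m → q % 12 = 7

/-- `D > 0` is cube-free, composed of primes `7` modulo `12`, and `± 1` modulo `9`. -/
def InClass (D : ℕ) : Prop :=
  0 < D ∧ (∀ p : ℕ, p.Prime → p ∣ D → p % 12 = 7 ∧ ¬ p ^ 3 ∣ D) ∧ (D % 9 = 1 ∨ D % 9 = 8)

/-- The infinite extension of `ℚ` generated by the square roots of `-3`, the cube roots of the `D` of
the class, and the numbers of degree `3 ^ n` in the cyclotomic fields of the `m` composed of primes `7`
modulo `12`. -/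
noncomputable def Omega : IntermediateField ℚ ℂ := IntermediateField.adjoin ℚ
  ({z : ℂ | z ^ 2 = -3} ∪ ({z : ℂ | ∃ D : ℕ, InClass D ∧ z ^ 3 = D} ∪
    {z : ℂ | (∃ n : ℕ, (minpoly ℚ z).natDegree = 3 ^ n) ∧
      ∃ m : ℕ, Conductor m ∧ z ∈ IntermediateField.adjoin ℚ {ζ : ℂ | ζ ^ m = 1}}))

/-- The form `f` over `k` becomes over `E` the sum of the cubes of the three linear forms whose
coefficients are the rows of `L`, and these linear forms are linearly independent. -/
def IsFermat {k E : Type} [Field k] [Field E] [Algebra k E] (f : MvPolynomial (Fin 3) k)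
    (L : Matrix (Fin 3) (Fin 3) E) : Prop :=
  map (algebraMap k E) f = ∑ i, (∑ j, C (L i j) * X j) ^ 3 ∧ L.det ≠ 0

/-- The curve `f = 0` over the completion `k_v` has a point over a finite extension `H` of `k_v` whose
degree is prime to `3`; that is, it has a zero-cycle whose degree is prime to `3`. -/
def LocalCycle {k : Type} [Field k] [NumberField k] (f : MvPolynomial (Fin 3) k)
    (v : HeightOneSpectrum (𝓞 k)) : Prop :=
  ∃ (H : Type) (_ : Field H) (_ : Algebra (v.adicCompletion k) H),
    FiniteDimensional (v.adicCompletion k) H ∧ ¬ 3 ∣ Module.finrank (v.adicCompletion k) H ∧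
      ∃ x : Fin 3 → H, x ≠ 0 ∧ eval₂ ((algebraMap (v.adicCompletion k) H).comp
        (algebraMap k (v.adicCompletion k))) x f = 0

/-- The curve `f = 0` has a `k`-rational point. -/
def HasPoint {k : Type} [Field k] (f : MvPolynomial (Fin 3) k) : Prop :=
  ∃ x : Fin 3 → k, x ≠ 0 ∧ eval x f = 0

/-- The binary cubic form `a x³ + b x² y + c x y² + d y³`. -/
noncomputable def binary {k : Type} [Field k] (a b c d : k) : MvPolynomial (Fin 3) k :=
  C a * X 0 ^ 3 + C b * X 0 ^ 2 * X 1 + C c * X 0 * X 1 ^ 2 + C d * X 1 ^ 3

/-- The discriminant of the binary cubic form. -/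
def disc {k : Type} [Field k] (a b c d : k) : k :=
  b ^ 2 * c ^ 2 - 4 * a * c ^ 3 - 4 * b ^ 3 * d + 18 * a * b * c * d - 27 * a ^ 2 * d ^ 2

theorem result :
    (∀ (K F k E : Type) [Field K] [NumberField K] [IsCyclotomicExtension {3} ℚ K] [Field F]
      [NumberField F] [Algebra K F] [Field k] [NumberField k] [Algebra k F] [Normal k F]
      [Field E] [Algebra k E] [Algebra F E] [IsScalarTower k F E], Allowed K F →
      ∀ (f : MvPolynomial (Fin 3) k) (L : Matrix (Fin 3) (Fin 3) E), IsFermat f L →
        (∃ t : F, algebraMap F E t ^ 6 = -16 * L.det ^ 6) →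
          (∀ v, LocalCycle f v) → HasPoint f) ∧
    (∀ (k : IntermediateField ℚ ℂ) [NumberField k], k ≤ Omega →
      ∀ (f : MvPolynomial (Fin 3) k) (L : Matrix (Fin 3) (Fin 3) ℂ), IsFermat f L →
        (∃ t ∈ Omega, t ^ 6 = -16 * L.det ^ 6) →
          (∀ v, LocalCycle f v) → HasPoint f) ∧
    (∀ (k : IntermediateField ℚ ℂ) [NumberField k], k ≤ Omega →
      ∀ a b c d e : k,
        (∃ t ∈ Omega, t ≠ 0 ∧ t ^ 6 = -16 * (e : ℂ) ^ 2 * disc (a : ℂ) b c d) →
          (∀ v, LocalCycle (binary a b c d - C e * X 2 ^ 3) v) →
            ∃ x y : k, (x ≠ 0 ∨ y ≠ 0) ∧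
              a * x ^ 3 + b * x ^ 2 * y + c * x * y ^ 2 + d * y ^ 3 = 0) := by
  refine ⟨?_, ?_, ?_⟩
  · intro K F k E _ _ _ _ _ _ _ _ _ _ _ _ _ _ hA f L hf ht hloc
    obtain ⟨h1, ⟨n, hn⟩, hR⟩ := hA
    obtain ⟨t, ht⟩ := ht
    have : CharZero E := charZero_of_injective_algebraMap (algebraMap F E).injective
    exact Pool.Agent.W2helper33.ZC.genF (K := K) hn hR hf.1 hf.2 ht.symm hloc
  · intro k _ hk f L hf ht hloc
    obtain ⟨t, htO, ht⟩ := ht
    exact Pool.Agent.W2helper33.ZC.genOm k hk hf.1 hf.2 htO ht.symm hloc
  · intro k _ hk a b c d e ht hloc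
    obtain ⟨t, htO, ht0, ht⟩ := ht
    obtain ⟨x, y, hxy, h⟩ := Pool.Agent.W2helper33.ZC.om_bin k hk (a := a) (b := b) (c := c)
      (d := d) (e := e) htO (by
        rw [ht]
        unfold disc Pool.Agent.W2helper33.ZC.dsc
        ring) ht0 (by
        intro v
        obtain ⟨H, i1, i2, hfin, h3, x, hx, h⟩ := hloc v
        refine ⟨H, i1, i2, hfin, h3, x 0, x 1, x 2, ?_, ?_⟩
        · rintro ⟨h0, h1, h2⟩
          apply hx
          funext i
          fin_cases i
          · exact h0
          · exact h1
          · exact h2
        · unfold Pool.Agent.W2helper33.ZC.QB Pool.Agent.W2helper33.ZC.bin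
          unfold binary at h
          simp only [eval₂_sub, eval₂_add, eval₂_mul, eval₂_pow, eval₂_C, eval₂_X] at h
          linear_combination h)
    refine ⟨x, y, ?_, ?_⟩
    · by_contra hcon
      push Not at hcon
      exact hxy hcon
    · unfold Pool.Agent.W2helper33.ZC.bin at h
      linear_combination h

end Pool.Agent.Results.MP_1ad228_nt.PlaneCubicsOverOmega
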